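import Pool.Agent.H.MP_932050_co.C

set_option autoImplicit false

namespace Pool.Agent.Results.MP_932050_co.Strong

theorem result :
    ∀ k : ℕ, 1 ≤ k → ∀ α : ℝ, 0 ≤ α → α ≤ 1 → ∀ ε : ℝ, 0 < ε →
      ∃ C : ℝ, ∀ (d : ℕ) (S : Finset (Submodule ℝ (EuclideanSpace ℝ (Fin d)))),
        (∀ U ∈ S, Module.finrank ℝ U = k) →
        (∀ U ∈ S, ∀ V ∈ S, U ≠ V → ∀ u ∈ U, ‖u‖ = 1 → ‖V.starProjection u‖ = α) →
        (S.card : ℝ) ≤ (2 + ε) * d + C := by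
  intro k hk α h0 h1 ε hε
  obtain ⟨C, _, h⟩ := Pool.Agent.H.MP_932050_co.main k hk α h0 h1 ε hε
  exact ⟨C, h⟩

end Pool.Agent.Results.MP_932050_co.Strong
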